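import Pool.Agent.BSE.Stmts

/-! BSE, module ROU (helper10). -/

set_option autoImplicit false

namespace Pool.Agent.BSE.H10

open Finset Polynomial

theorem rou : Pool.Agent.BSE.ROUStmt := by
  intro m γ α β z hz
  set P : ℂ[X] := (C γ + C α * X + C β * X ^ 2) ^ m with hP
  have hdeg : P.natDegree < 2 * m + 1 := by
    have h1 : (C γ + C α * X + C β * X ^ 2 : ℂ[X]).natDegree ≤ 2 := by
      compute_degree
    have h2 : P.natDegree ≤ m * 2 :=
      (natDegree_pow_le (p := (C γ + C α * X + C β * X ^ 2 : ℂ[X])) (n := m)).trans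
        (Nat.mul_le_mul_left _ h1)
    omega
  have hev : ∀ t : ℕ, (γ + α * z ^ t + β * z ^ (2 * t)) ^ m =
      ∑ j ∈ range (2 * m + 1), P.coeff j * (z ^ j) ^ t := by
    intro t
    have h1 : P.eval (z ^ t) = (γ + α * z ^ t + β * z ^ (2 * t)) ^ m := by
      rw [hP]
      simp only [eval_pow, eval_add, eval_mul, eval_C, eval_X]
      congr 2
      rw [← pow_mul, mul_comm t 2]
    rw [← h1, eval_eq_sum_range' hdeg]
    refine sum_congr rfl (fun j _ => ?_)
    rw [← pow_mul, ← pow_mul, mul_comm t j]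
  have hc0 : P.coeff 0 = γ ^ m := by
    rw [coeff_zero_eq_eval_zero, hP]
    simp
  simp only [hev]
  rw [sum_comm]
  have hj : ∀ j ∈ range (2 * m + 1), j ≠ 0 →
      ∑ t ∈ range (2 * m + 1), P.coeff j * (z ^ j) ^ t = 0 := by
    intro j hj hj0
    rw [← mul_sum]
    have hne : z ^ j ≠ 1 := hz.pow_ne_one_of_pos_of_lt hj0 (mem_range.1 hj)
    have h1 : (∑ t ∈ range (2 * m + 1), (z ^ j) ^ t) * (z ^ j - 1) = 0 := by
      rw [geom_sum_mul, ← pow_mul, mul_comm j, pow_mul, hz.pow_eq_one, one_pow, sub_self]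
    rcases mul_eq_zero.1 h1 with h2 | h2
    · rw [h2, mul_zero]
    · exact absurd (sub_eq_zero.1 h2) hne
  rw [sum_eq_single_of_mem 0 (mem_range.2 (by omega)) hj]
  simp only [pow_zero, one_pow, mul_one, sum_const, card_range, nsmul_eq_mul, hc0]
  push_cast
  ring

end Pool.Agent.BSE.H10
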