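import Pool.Agent.BSE.Stmts4
import Pool.Agent.Helper25_BSE.SC1

/-!
# BSE, row SR1: the core Schur identity for products of different forms
-/

open MeasureTheory Matrix Finset
open scoped ComplexConjugate

namespace Pool.Agent.BSE.H10

open Pool.Agent.Helper64_FR Pool.Agent.BSE.H25

variable {n : ℕ}

/-- the entry of an element of `U_B` -/
noncomputable abbrev en {B : Finset (Fin n)} (A : UB B) (i j : Fin n) : ℂ :=
  ((A : UU n) : Matrix (Fin n) (Fin n) ℂ) i j

/-- the coefficient of `conj (v_j)` -/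
noncomputable def GG (B : Finset (Fin n)) (b : Fin n) (c : Fin n → ℝ) (j : Fin n) (A : UB B) : ℂ :=
  ∑ i ∈ B, (c i : ℂ) * conj (en A i j) * en A i b

theorem GG_cont (B : Finset (Fin n)) (b : Fin n) (c : Fin n → ℝ) (j : Fin n) :
    Continuous (GG B b c j) := by
  unfold GG
  exact continuous_finsetSum _ fun i _ =>
    (continuous_const.mul (Complex.continuous_conj.comp (cont_ent B i j))).mul (cont_ent B i b)

theorem exists_diag (B : Finset (Fin n)) {j : Fin n} (hj : j ∈ B) (ζ : ℂ) (hζ : ζ * conj ζ = 1) :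
    ∃ D : UB B, ∀ (A : UB B) (i l : Fin n),
      en (A * D) i l = en A i l * (if l = j then ζ else 1) := by
  refine ⟨⟨⟨Matrix.diagonal (fun i => if i = j then ζ else 1), ?_⟩, ?_⟩, ?_⟩
  · rw [Matrix.mem_unitaryGroup_iff, Matrix.star_eq_conjTranspose,
      Matrix.diagonal_conjTranspose, Matrix.diagonal_mul_diagonal, ← Matrix.diagonal_one]
    congr 1
    funext i
    show (if i = j then ζ else 1) * conj (if i = j then ζ else 1) = 1
    split_ifs
    · exact hζ
    · rw [map_one, mul_one]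
  · intro i l h
    show Matrix.diagonal (fun i => if i = j then ζ else 1) i l = _
    rw [Matrix.diagonal_apply]
    by_cases hil : i = l
    · rw [if_pos hil, if_pos hil, if_neg]
      rintro rfl
      rcases h with h | h
      · exact h hj
      · exact h (hil ▸ hj)
    · rw [if_neg hil, if_neg hil]
  · intro A i l
    exact Matrix.mul_diagonal (fun i => if i = j then ζ else 1)
      ((A : UU n) : Matrix (Fin n) (Fin n) ℂ) i l

theorem GG_mul (B : Finset (Fin n)) {b j : Fin n} (hbj : b ≠ j) (c : Fin n → ℝ) (l : Fin n)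
    (ζ : ℂ) (A D : UB B)
    (hD : ∀ i l : Fin n, en (A * D) i l = en A i l * (if l = j then ζ else 1)) :
    GG B b c l (A * D) = (if l = j then conj ζ else 1) * GG B b c l A := by
  unfold GG
  rw [Finset.mul_sum]
  refine Finset.sum_congr rfl fun i _ => ?_
  rw [hD i l, hD i b, if_neg hbj, mul_one, map_mul]
  split_ifs
  · ring
  · rw [map_one]; ring

theorem vanish (inv : INVStmt) {ι : Type} [Fintype ι] (B : Finset (Fin n)) (b : Fin n)
    (c : ι → Fin n → ℝ) (q : ι → Fin n) (hq : ∀ s, q s ∈ B) (s₀ : ι) (hs₀ : q s₀ ≠ b) :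
    ∫ A : UB B, ∏ s, GG B b (c s) (q s) A ∂(haarB B) = 0 := by
  classical
  set j := q s₀ with hj
  set m : ℕ := (Finset.univ.filter (fun s => q s = j)).card with hm
  have hm0 : 0 < m := by
    rw [hm, Finset.card_pos]
    exact ⟨s₀, Finset.mem_filter.2 ⟨Finset.mem_univ _, hj.symm⟩⟩
  set ζ : ℂ := Complex.exp (((Real.pi / m : ℝ) : ℂ) * Complex.I) with hz
  have hn : ‖ζ‖ = 1 := Complex.norm_exp_ofReal_mul_I _
  have hzz : ζ * conj ζ = 1 := by
    rw [Complex.mul_conj', hn]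
    simp
  have hpow : conj ζ ^ m = -1 := by
    have h1 : ζ ^ m = -1 := by
      rw [hz, ← Complex.exp_nat_mul]
      have h2 : (m : ℂ) * (((Real.pi / m : ℝ) : ℂ) * Complex.I) = Real.pi * Complex.I := by
        have h3 : (m : ℂ) ≠ 0 := by exact_mod_cast hm0.ne'
        push_cast
        field_simp
      rw [h2, Complex.exp_pi_mul_I]
    rw [← map_pow, h1, map_neg, map_one]
  obtain ⟨D, hD⟩ := exists_diag B (hq s₀) ζ hzz
  have h1 := ((inv n B).2 (fun A : UB B => ∏ s, GG B b (c s) (q s) A)).2.1 D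
  have h2 : ∀ A : UB B, ∏ s, GG B b (c s) (q s) (A * D) = -∏ s, GG B b (c s) (q s) A := by
    intro A
    have h3 : ∀ s, GG B b (c s) (q s) (A * D) =
        (if q s = j then conj ζ else 1) * GG B b (c s) (q s) A :=
      fun s => GG_mul B (Ne.symm hs₀) (c s) (q s) ζ A D (hD A)
    rw [Finset.prod_congr rfl fun s _ => h3 s, Finset.prod_mul_distrib, Finset.prod_ite,
      Finset.prod_const, Finset.prod_const_one, mul_one, ← hm, hpow, neg_one_mul]
  simp_rw [h2] at h1
  rw [integral_neg] at h1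
  exact self_eq_neg.1 h1.symm

theorem core (inv : INVStmt) {ι : Type} [Fintype ι] (B : Finset (Fin n)) {b : Fin n} (hb : b ∈ B)
    (w : ι → Fin n → ℂ) (c : ι → Fin n → ℝ) :
    ∫ A : UB B, ∏ s, (∑ i ∈ B, (c s i : ℂ) *
        conj ((((A : UU n) : Matrix (Fin n) (Fin n) ℂ) *ᵥ w s) i) * en A i b) ∂(haarB B) =
      (∏ s, conj (w s b)) * ∫ A : UB B, ∏ s, ((∑ j ∈ B, ‖en A j b‖ ^ 2 * c s j : ℝ) : ℂ)
        ∂(haarB B) := by
  classical
  have := (inv n B).1
  have h1 : ∀ (A : UB B) (s : ι), (∑ i ∈ B, (c s i : ℂ) *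
      conj ((((A : UU n) : Matrix (Fin n) (Fin n) ℂ) *ᵥ w s) i) * en A i b) =
      ∑ j ∈ B, conj (w s j) * GG B b (c s) j A := by
    intro A s
    unfold GG
    simp_rw [Finset.mul_sum]
    rw [Finset.sum_comm]
    refine Finset.sum_congr rfl fun i hi => ?_
    rw [mv_eq A (w s) hi, map_sum, Finset.mul_sum, Finset.sum_mul]
    refine Finset.sum_congr rfl fun j _ => ?_
    rw [map_mul]
    ring
  have h2 : ∀ A : UB B, ∏ s, (∑ i ∈ B, (c s i : ℂ) *
      conj ((((A : UU n) : Matrix (Fin n) (Fin n) ℂ) *ᵥ w s) i) * en A i b) =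
      ∑ q ∈ Fintype.piFinset (fun _ : ι => B), (∏ s, conj (w s (q s))) *
        ∏ s, GG B b (c s) (q s) A := by
    intro A
    rw [Finset.prod_congr rfl fun s _ => h1 A s, Finset.prod_univ_sum]
    refine Finset.sum_congr rfl fun q _ => ?_
    rw [Finset.prod_mul_distrib]
  simp_rw [h2]
  have hint : ∀ q : ι → Fin n, Integrable (fun A : UB B => ∏ s, GG B b (c s) (q s) A)
      (haarB B) := fun q =>
    (continuous_finsetProd _ fun s _ => GG_cont B b (c s) (q s)).integrable_of_hasCompactSupport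
      (HasCompactSupport.of_compactSpace _)
  rw [integral_finsetSum _ fun q _ => (hint q).const_mul _]
  simp_rw [integral_const_mul]
  rw [Finset.sum_eq_single (fun _ => b)]
  · congr 1
    congr 1
    funext A
    refine Finset.prod_congr rfl fun s _ => ?_
    unfold GG
    push_cast
    refine Finset.sum_congr rfl fun i _ => ?_
    have h5 := Complex.conj_mul' (en A i b)
    linear_combination (c s i : ℂ) * h5
  · intro q hq hne
    have h3 : ∃ s, q s ≠ b := by
      by_contra hcon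
      push Not at hcon
      exact hne (funext hcon)
    obtain ⟨s₀, hs₀⟩ := h3
    rw [vanish inv B b c q (fun s => Fintype.mem_piFinset.1 hq s) s₀ hs₀, mul_zero]
  · intro h
    exact absurd (Fintype.mem_piFinset.2 fun _ => hb) h

theorem full (trn : TRNStmt) (inv : INVStmt) {ι : Type} [Fintype ι] (B : Finset (Fin n))
    {b : Fin n} (hb : b ∈ B) (u : Fin n → ℂ) (v : ι → Fin n → ℂ) (c : ι → Fin n → ℝ) :
    ∫ A : UB B, ∏ s, (∑ i ∈ B, (c s i : ℂ) *
        conj ((((A : UU n) : Matrix (Fin n) (Fin n) ℂ) *ᵥ v s) i) *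
        (((A : UU n) : Matrix (Fin n) (Fin n) ℂ) *ᵥ u) i) ∂(haarB B) =
      (∏ s, ∑ i ∈ B, conj (v s i) * u i) *
        ∫ A : UB B, ∏ s, ((∑ j ∈ B, ‖en A j b‖ ^ 2 * c s j : ℝ) : ℂ) ∂(haarB B) := by
  have := (inv n B).1
  set r2 : ℝ := ∑ i ∈ B, ‖u i‖ ^ 2 with hr2
  have hr0 : 0 ≤ r2 := Finset.sum_nonneg fun i _ => sq_nonneg _
  rcases eq_or_lt_of_le hr0 with h0 | h0
  · have hu : ∀ i ∈ B, u i = 0 := by
      intro i hi
      have h1 := (Finset.sum_eq_zero_iff_of_nonneg fun i _ => sq_nonneg ‖u i‖).1 h0.symm i hi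
      exact norm_eq_zero.1 (pow_eq_zero_iff two_ne_zero |>.1 h1)
    rcases isEmpty_or_nonempty ι with hι | ⟨⟨s₀⟩⟩
    · simp
    · have hP : ∀ A : UB B, ∏ s, (∑ i ∈ B, (c s i : ℂ) *
          conj ((((A : UU n) : Matrix (Fin n) (Fin n) ℂ) *ᵥ v s) i) *
          (((A : UU n) : Matrix (Fin n) (Fin n) ℂ) *ᵥ u) i) = 0 := by
        intro A
        refine Finset.prod_eq_zero (Finset.mem_univ s₀) ?_
        refine Finset.sum_eq_zero fun i hi => ?_
        have h2 : (((A : UU n) : Matrix (Fin n) (Fin n) ℂ) *ᵥ u) i = 0 := by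
          rw [mv_eq A u hi]
          exact Finset.sum_eq_zero fun j hj => by rw [hu j hj, mul_zero]
        rw [h2, mul_zero]
      have hQ : ∏ s, ∑ i ∈ B, conj (v s i) * u i = 0 := by
        refine Finset.prod_eq_zero (Finset.mem_univ s₀) ?_
        exact Finset.sum_eq_zero fun i hi => by rw [hu i hi, mul_zero]
      simp_rw [hP]
      rw [hQ, zero_mul, integral_zero]
  · set r : ℝ := Real.sqrt r2 with hr
    have hrp : 0 < r := Real.sqrt_pos.2 h0
    have hrr : r * r = r2 := Real.mul_self_sqrt hr0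
    have hrc : (r : ℂ) ≠ 0 := by exact_mod_cast hrp.ne'
    obtain ⟨A0, hA0, hA0b⟩ := trn n B b hb (fun i => if i ∈ B then u i / r else 0)
      (fun i hi => by simp [hi]) (by
        have h1 : ∀ i, ‖(if i ∈ B then u i / (r : ℂ) else 0)‖ ^ 2 =
            if i ∈ B then ‖u i‖ ^ 2 / r2 else 0 := by
          intro i
          split_ifs with h
          · rw [norm_div, Complex.norm_real, Real.norm_of_nonneg hrp.le, div_pow, sq r, hrr]
          · simp
        simp_rw [h1]
        rw [← Finset.sum_filter, Finset.filter_univ_mem, ← Finset.sum_div]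
        exact div_self h0.ne')
    set a0 : UB B := ⟨A0, hA0⟩ with ha0
    -- the transformed vectors
    set v' : ι → Fin n → ℂ := fun s => ((((a0⁻¹ : UB B) : UU n) : Matrix (Fin n) (Fin n) ℂ) *ᵥ v s)
      with hv'
    have hAv : ∀ (A : UB B) (s : ι), ((A : UU n) : Matrix (Fin n) (Fin n) ℂ) *ᵥ v s =
        (((A * a0 : UB B) : UU n) : Matrix (Fin n) (Fin n) ℂ) *ᵥ v' s := by
      intro A s
      rw [hv']
      beta_reduce
      rw [Matrix.mulVec_mulVec]
      have h3 : (((A * a0 : UB B) : UU n) : Matrix (Fin n) (Fin n) ℂ) *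
          (((a0⁻¹ : UB B) : UU n) : Matrix (Fin n) (Fin n) ℂ) =
          (((A * a0 * a0⁻¹ : UB B) : UU n) : Matrix (Fin n) (Fin n) ℂ) := rfl
      rw [h3, mul_inv_cancel_right]
    have hAu : ∀ (A : UB B) (i : Fin n), i ∈ B →
        (((A : UU n) : Matrix (Fin n) (Fin n) ℂ) *ᵥ u) i = r * en (A * a0) i b := by
      intro A i hi
      have h3 : en (A * a0) i b = ∑ j, ((A : UU n) : Matrix (Fin n) (Fin n) ℂ) i j *
          (A0 : Matrix (Fin n) (Fin n) ℂ) j b := rfl
      rw [h3, mv_eq A u hi, Finset.mul_sum]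
      have h4 : ∀ j, (r : ℂ) * (((A : UU n) : Matrix (Fin n) (Fin n) ℂ) i j *
          (A0 : Matrix (Fin n) (Fin n) ℂ) j b) =
          if j ∈ B then ((A : UU n) : Matrix (Fin n) (Fin n) ℂ) i j * u j else 0 := by
        intro j
        rw [hA0b]
        split_ifs with h
        · field_simp
        · simp
      simp_rw [h4]
      rw [← Finset.sum_filter, Finset.filter_univ_mem]
    have hvu : ∀ s, ∑ i ∈ B, conj (v s i) * u i = r * conj (v' s b) := by
      intro s
      have h3 : v' s b = ∑ j, conj ((A0 : Matrix (Fin n) (Fin n) ℂ) j b) * v s j := rfl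
      rw [h3, map_sum, Finset.mul_sum]
      have h4 : ∀ j, (r : ℂ) * conj (conj ((A0 : Matrix (Fin n) (Fin n) ℂ) j b) * v s j) =
          if j ∈ B then conj (v s j) * u j else 0 := by
        intro j
        rw [map_mul, Complex.conj_conj, hA0b]
        split_ifs with h
        · field_simp
        · simp
      simp_rw [h4]
      rw [← Finset.sum_filter, Finset.filter_univ_mem]
    have hkey : ∀ A : UB B, ∏ s, (∑ i ∈ B, (c s i : ℂ) *
        conj ((((A : UU n) : Matrix (Fin n) (Fin n) ℂ) *ᵥ v s) i) *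
        (((A : UU n) : Matrix (Fin n) (Fin n) ℂ) *ᵥ u) i) =
        (∏ _s : ι, (r : ℂ)) * ∏ s, (∑ i ∈ B, (c s i : ℂ) *
          conj (((((A * a0 : UB B) : UU n) : Matrix (Fin n) (Fin n) ℂ) *ᵥ v' s) i) *
          en (A * a0) i b) := by
      intro A
      rw [← Finset.prod_mul_distrib]
      refine Finset.prod_congr rfl fun s _ => ?_
      rw [Finset.mul_sum]
      refine Finset.sum_congr rfl fun i hi => ?_
      rw [hAv, hAu A i hi]
      ring
    simp_rw [hkey]
    rw [integral_const_mul]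
    have h6 := ((inv n B).2 (fun A : UB B => ∏ s, (∑ i ∈ B, (c s i : ℂ) *
      conj ((((A : UU n) : Matrix (Fin n) (Fin n) ℂ) *ᵥ v' s) i) * en A i b))).2.1 a0
    rw [h6, core inv B hb v' c, ← mul_assoc, ← Finset.prod_mul_distrib]
    simp_rw [hvu]

theorem sr1 (trn : TRNStmt) (inv : INVStmt) : SR1Stmt := by
  intro n k B b hb S u v c
  have h := full trn inv B hb u (fun s : S => v s) (fun s : S => c s)
  have e1 : ∀ A : UB B, ∏ s ∈ S, (∑ i ∈ B, (c s i : ℂ) *
      conj ((((A : UU n) : Matrix (Fin n) (Fin n) ℂ) *ᵥ v s) i) *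
      (((A : UU n) : Matrix (Fin n) (Fin n) ℂ) *ᵥ u) i) = ∏ s : S, (∑ i ∈ B, (c s i : ℂ) *
      conj ((((A : UU n) : Matrix (Fin n) (Fin n) ℂ) *ᵥ v s) i) *
      (((A : UU n) : Matrix (Fin n) (Fin n) ℂ) *ᵥ u) i) := fun A =>
    (Finset.prod_coe_sort S (fun s => ∑ i ∈ B, (c s i : ℂ) *
      conj ((((A : UU n) : Matrix (Fin n) (Fin n) ℂ) *ᵥ v s) i) *
      (((A : UU n) : Matrix (Fin n) (Fin n) ℂ) *ᵥ u) i)).symm
  have e2 : ∏ s ∈ S, ∑ i ∈ B, conj (v s i) * u i = ∏ s : S, ∑ i ∈ B, conj (v s i) * u i :=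
    (Finset.prod_coe_sort S (fun s => ∑ i ∈ B, conj (v s i) * u i)).symm
  have e3 : ∀ A : UB B, ∏ s ∈ S,
      ((∑ j ∈ B, ‖((A : UU n) : Matrix (Fin n) (Fin n) ℂ) j b‖ ^ 2 * c s j : ℝ) : ℂ) =
      ∏ s : S,
      ((∑ j ∈ B, ‖((A : UU n) : Matrix (Fin n) (Fin n) ℂ) j b‖ ^ 2 * c s j : ℝ) : ℂ) := fun A =>
    (Finset.prod_coe_sort S (fun s =>
      ((∑ j ∈ B, ‖((A : UU n) : Matrix (Fin n) (Fin n) ℂ) j b‖ ^ 2 * c s j : ℝ) : ℂ))).symm
  simp_rw [e1, e3]
  rw [e2]
  exact h

end Pool.Agent.BSE.H10
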